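import Pool.Agent.H23.LB.Targets
import Pool.Agent.H25.HK.Targets
import Pool.Agent.H29.DW.CC
import Pool.Agent.H90.SWL.BIa
import Pool.Agent.H55.TM.BIn
import Pool.Agent.H59.SM.BI
import Pool.Agent.H23.DM.TargetsQ

/-!
# (QI) the bound for the integral over all positions (mean square over a family of boxes)
-/

set_option autoImplicit false

open NumberField NumberField.InfinitePlace NumberField.Units
  NumberField.Units.dirichletUnitTheorem MeasureTheory Set Filter Complex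
open scoped nonZeroDivisors ENNReal

namespace Pool.Agent.H1.DMQ.QI

open Pool.Agent.H25.HK Pool.Agent.H23.LB Pool.Agent.H23.LC
open Pool.Agent.H28.RC (Rep ft idl)
open Pool.Agent.H29.DW (dg Rl lf wv Pos Wg cpar Ci om zs rv Wt)
open Pool.Agent.H29.TC (Gn LC cq MC)
open Pool.Agent.H31.SW
open Pool.Agent.H31.SX (LK)
open Pool.Agent.H27.TM (Cls)
open Pool.Agent.H23.SM (S_JN)
open Pool.Agent.H23.DM
open Pool.Agent.H90.SWL.BI (pz_Pf ps_Pf one_le_PP lint_exp)
open Pool.Agent.H55.TM.BI (num)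
open Pool.Agent.H59.SM.BI (pw2 pw34 cmp fin)

/-- the final comparison -/
private theorem fin2 {n : ℕ} {ε ε' B₀ X N R T d D : ℝ} (hε0 : 0 < ε) (hε1 : ε ≤ 1)
    (hε'0 : 0 < ε') (hε' : ε' ≤ ε / 24) (hB₀ : 0 ≤ B₀) (hX : 1 ≤ X) (hN : 1 ≤ N) (hR : 1 ≤ R)
    (hT : 1 ≤ T) (hd : 1 ≤ d) (hD : 1 ≤ D) (hX2 : X ^ 2 ≤ 6 ^ n * (d * N * T)) {PH : ℝ}
    (hPH : 0 ≤ PH) :
    (N * R) ^ 2 * (D * d * R) ^ B₀ * T ^ (ε / 2) * PH * d ^ 2 * (X ^ ε') ^ 2 ≤
      6 ^ n * ((D * d * (N * R)) ^ (B₀ + 7) * T ^ ε * PH) := by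
  have h1 := fin (n := n) hε0 hε1 hε'0 hε' hB₀ hX hN hT hd
    (one_le_mul_of_one_le_of_one_le hD hR) hX2 hPH
  have hR0 : 0 < R := by linarith
  have hT0 : 0 < T := by linarith
  have hP1 : 1 ≤ D * d * (N * R) := one_le_mul_of_one_le_of_one_le
    (one_le_mul_of_one_le_of_one_le hD hd) (one_le_mul_of_one_le_of_one_le hN hR)
  have hP0 : 0 < D * d * (N * R) := by linarith
  have hRP : R ≤ D * d * (N * R) := by
    have e : D * d * (N * R) = (D * d * N) * R := by ring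
    rw [e]
    exact le_mul_of_one_le_left hR0.le (one_le_mul_of_one_le_of_one_le
      (one_le_mul_of_one_le_of_one_le hD hd) hN)
  calc (N * R) ^ 2 * (D * d * R) ^ B₀ * T ^ (ε / 2) * PH * d ^ 2 * (X ^ ε') ^ 2
      = R ^ 2 * (N ^ 2 * (D * R * d) ^ B₀ * T ^ (ε / 2) * PH * d ^ 2 * (X ^ ε') ^ 2) := by
        have e : D * d * R = D * R * d := by ring
        rw [e]
        ring
    _ ≤ R ^ 2 * (6 ^ n * ((D * R * d * N) ^ (B₀ + 5) * T ^ ε * PH)) :=
        mul_le_mul_of_nonneg_left h1 (by positivity)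
    _ = 6 ^ n * ((R ^ 2 * (D * d * (N * R)) ^ (B₀ + 5)) * T ^ ε * PH) := by
        have e : D * R * d * N = D * d * (N * R) := by ring
        rw [e]
        ring
    _ ≤ 6 ^ n * (((D * d * (N * R)) ^ 2 * (D * d * (N * R)) ^ (B₀ + 5)) * T ^ ε * PH) := by
        gcongr
    _ = _ := by
        have e : (D * d * (N * R)) ^ (B₀ + 7) =
            (D * d * (N * R)) ^ 2 * (D * d * (N * R)) ^ (B₀ + 5) := by
          rw [← Real.rpow_natCast (D * d * (N * R)) 2, ← Real.rpow_add hP0]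
          congr 1
          push_cast
          ring
        rw [e]

section

variable {K : Type} [Field K] [NumberField K]

open scoped Classical in
/-- the integral of a function of the position in the norm direction -/
private theorem lint_prod {n : ℕ} (hn : Module.finrank ℚ K = n) (hFD : T_FD) (g : ℝ → ℝ≥0∞)
    (hg : Measurable g) :
    ∫⁻ u in Fd K ×ˢ (univ : Set ℝ) ×ˢ An K, g u.2.1 ≤
      ENNReal.ofReal (regulator K) *
        ((∫⁻ τ, g τ) * ENNReal.ofReal ((2 * Real.pi) ^ n)) := by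
  have hm : Measurable (fun u : logSpace K × ℝ × (InfinitePlace K → ℝ) => g u.2.1) :=
    hg.comp (measurable_fst.comp measurable_snd)
  rw [Measure.volume_eq_prod, ← Measure.prod_restrict, Measure.volume_eq_prod,
    ← Measure.prod_restrict, lintegral_prod _ hm.aemeasurable]
  have h2 : ∫⁻ y : ℝ × (InfinitePlace K → ℝ), g y.1
      ∂((volume.restrict (univ : Set ℝ)).prod (volume.restrict (An K))) =
      (∫⁻ τ, g τ) * volume (An K) := by
    have hm2 : Measurable (fun y : ℝ × (InfinitePlace K → ℝ) => g y.1) := hg.comp measurable_fst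
    rw [lintegral_prod _ hm2.aemeasurable, Measure.restrict_univ]
    simp only [lintegral_const, Measure.restrict_apply MeasurableSet.univ, univ_inter]
    rw [lintegral_mul_const _ hg]
  simp only [h2, lintegral_const, Measure.restrict_apply MeasurableSet.univ, univ_inter]
  rw [mul_comm]
  refine mul_le_mul' ?_ (mul_le_mul' le_rfl (Pool.Agent.H29.DW.An_vol hn))
  have h1 := Pool.Agent.H94.GLA.vol_Fd (K := K)
  rw [← h1]
  exact le_of_eq (ENNReal.ofReal_toReal (hFD K).2.2.2.1.ne).symm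

private theorem DD_yM (hYC : T_YC) (M : FI K) (hM : M ≠ 0) (τ : ℝ) (z : logSpace K) :
    DD M (yM K M τ z) = Real.exp (-τ) := by
  have h0 : (0 : ℝ) < (FractionalIdeal.absNorm M : ℝ) := by
    have h1 : FractionalIdeal.absNorm M ≠ 0 := by
      rw [Ne, FractionalIdeal.absNorm_eq_zero_iff]
      exact hM
    have h2 : 0 ≤ FractionalIdeal.absNorm M := FractionalIdeal.absNorm_nonneg M
    exact_mod_cast lt_of_le_of_ne h2 h1.symm
  unfold DD yM
  rw [(hYC K).1]
  have h1 : -(2 * (τ - Real.log (FractionalIdeal.absNorm M : ℝ))) / 2 =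
      -τ + Real.log (FractionalIdeal.absNorm M : ℝ) := by ring
  rw [h1, Real.exp_add, Real.exp_log h0]
  field_simp

end

open scoped Classical in
/-- (QI) the bound for the integral over all positions. -/
theorem pf_QI (hRT : D_QR) (hJN : S_JN) (hIN : Pool.Agent.H31.SW.W_IN)
    (hMS : Pool.Agent.H31.SW.W_MS) (hRR : Pool.Agent.H23.LB.T_RR)
    (hYC : Pool.Agent.H25.HK.T_YC) (hFD : Pool.Agent.H25.HK.T_FD) : D_QI := by
  intro n hn0
  obtain ⟨B₀, hB₀, hRT⟩ := hRT n hn0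
  refine ⟨B₀ + 7, by linarith, ?_⟩
  intro ε κ hε0 hε1 hκ0 hκ
  have hκ12 : κ ≤ 1 / 12 := by linarith
  have hκ1 : κ ≤ 1 := by linarith
  obtain ⟨C1, hC1, hRS1⟩ := hRT (ε / 2) (ps κ pz) (by linarith) (by linarith) (ps_Pf κ)
  obtain ⟨C2, hC2, hRS2⟩ := hRT (ε / 2) (ps 1 pz) (by linarith) (by linarith) (ps_Pf 1)
  obtain ⟨m, hm⟩ : ∃ m : ℕ, B₀ ≤ ((2 * m : ℕ) : ℝ) := by
    obtain ⟨m, hm⟩ := exists_nat_ge B₀
    exact ⟨m, hm.trans (by push_cast; nlinarith [(Nat.cast_nonneg m : (0 : ℝ) ≤ m)])⟩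
  obtain ⟨I0, hI0⟩ : ∃ I0 : ℝ≥0∞, I0 = ∫⁻ w : ℝ, ENNReal.ofReal (Real.exp (-w ^ 2 / 4) *
    (4 + 2 * |w|) ^ m) := ⟨_, rfl⟩
  have hI0fin : I0 < ⊤ := by
    rw [hI0]
    exact Pool.Agent.H29.DW.gauss_poly m
  refine ⟨(C1 + C2) * ((Real.exp n + 1) * 6 ^ n * 2) ^ 2 * I0.toReal ^ 2 *
    (Real.exp (κ * n) / κ) ^ 2 * ((2 * Real.pi) ^ n) ^ 2 * 6 ^ n, by positivity, ?_⟩
  intro K _ _ hn ι _ M hM l k κκ x₀ H τ A J bl η c X B D E v cc s hLK hgen hKq hτ1 hLC hcls hLab
    hspc hD hX hX2 hB hv hE hper hbd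
  have hX0 : 0 < X := by linarith
  have hNf : 1 ≤ Nf K l := by
    unfold Nf
    have h : Ideal.absNorm l ≠ 0 := fun h => hLK.l_ne (Ideal.absNorm_eq_zero_iff.1 h)
    exact_mod_cast Nat.one_le_iff_ne_zero.2 h
  have hNf0 : 0 < Nf K l := by linarith
  have hNk : 1 ≤ Nf K k := by
    unfold Nf
    have h : Ideal.absNorm k ≠ 0 := fun h => hLK.k_ne (Ideal.absNorm_eq_zero_iff.1 h)
    exact_mod_cast Nat.one_le_iff_ne_zero.2 h
  obtain ⟨R, hR⟩ : ∃ R : ℝ, R = Nf K k.radical := ⟨_, rfl⟩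
  have hR1 : 1 ≤ R := by
    rw [hR]
    unfold Nf
    have hr : k.radical ≠ ⊥ := fun h => hLK.k_ne (le_bot_iff.1 (h ▸ Ideal.le_radical))
    have h : Ideal.absNorm k.radical ≠ 0 := fun h => hr (Ideal.absNorm_eq_zero_iff.1 h)
    exact_mod_cast Nat.one_le_iff_ne_zero.2 h
  have hR0 : 0 < R := by linarith
  obtain ⟨c2, hc2⟩ : ∃ c2 : A → ι → K → ℂ, c2 = fun a i x => cc a i x * cq k (η a) (M i) (x₀ i) x :=
    ⟨_, rfl⟩
  have hgoal : ∀ a i x, cc a i x * cq k (η a) (M i) (x₀ i) x = c2 a i x := fun a i x => by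
    rw [hc2]
  simp only [hgoal]
  have hbd2 : ∀ a ∈ J, ∀ i, ∀ x ∈ M i, ‖c2 a i x‖ ≤ E := by
    intro a ha i x hx
    rw [hc2, norm_mul]
    calc ‖cc a i x‖ * ‖cq k (η a) (M i) (x₀ i) x‖ ≤ E * 1 :=
          mul_le_mul (hbd a ha i x hx) (Pool.Agent.H29.DW.norm_cq k (hLC a ha) (M i) (x₀ i) x)
            (norm_nonneg _) hE
      _ = E := mul_one E
  have hd : 1 ≤ dK K := by
    unfold dK
    have h : (1 : ℤ) ≤ |discr K| := Int.one_le_abs (discr_ne_zero K)
    have h2 : ((1 : ℤ) : ℝ) ≤ ((|discr K| : ℤ) : ℝ) := by exact_mod_cast h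
    simpa using h2
  have hd0 : 0 < dK K := by linarith
  have hD0 : 0 < D := by linarith
  have hreg : 0 < regulator K := regulator_pos K
  obtain ⟨T, hT⟩ : ∃ T : ℝ, T = Nf K k * PP τ := ⟨_, rfl⟩
  have hT1 : 1 ≤ T := by
    rw [hT]
    exact one_le_mul_of_one_le_of_one_le hNk (one_le_PP (fun v => (hτ1 v).2))
  have hT0 : 0 < T := by linarith
  obtain ⟨PH, hPH⟩ : ∃ PH : ℝ, PH = QB k κκ τ H ((J.image bl).card : ℝ) := ⟨_, rfl⟩
  have hPH0 : 0 ≤ PH := by
    rw [hPH]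
    unfold QB
    have e1 : 0 ≤ Nf K κκ := by
      unfold Nf
      positivity
    have e2 : 0 ≤ PP H := by linarith [one_le_PP (fun v => (hτ1 v).1)]
    have e3 : 0 ≤ PP (fun v => max (τ v) (H v ^ 3)) := by
      linarith [one_le_PP (fun v => (hτ1 v).2.trans (le_max_left (τ v) (H v ^ 3)))]
    positivity
  rw [← hT] at hX2
  rw [← hT, ← hR, ← hPH]
  obtain ⟨Q, hQ⟩ : ∃ Q : ℝ, Q = ((C1 + C2) * ((E * (Nf K l * R)) ^ 2 * (D * dK K * R) ^ B₀ *
    T ^ (ε / 2) * PH)) ^ (1 / 2 : ℝ) := ⟨_, rfl⟩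
  have hQ0 : 0 ≤ Q := by rw [hQ]; positivity
  have hQ2 : Q ^ 2 = (C1 + C2) * ((E * (Nf K l * R)) ^ 2 * (D * dK K * R) ^ B₀ * T ^ (ε / 2) * PH) := by
    rw [hQ, pw2 (by positivity)]
  obtain ⟨W, hW⟩ : ∃ W : ℝ, W = B * Q * ((Real.exp n + 1) * 6 ^ n * dK K * (2 * X ^ κ)) *
    I0.toReal := ⟨_, rfl⟩
  have hW0 : 0 ≤ W := by
    rw [hW]
    positivity
  -- the pointwise bound
  have hpt : ∀ (i : ι) (u : logSpace K × ℝ × (InfinitePlace K → ℝ)),
      ∑ a ∈ J, (ENNReal.ofReal ‖∑' x : {x : K // x ∈ M i ∧ x ≠ 0}, c2 a i x *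
        v a (Ideal.absNorm (idl K (M i) x)) *
          pF (fun v => GG (pz (rv v)) (c a v)) (yM K (M i) u.2.1 (zs s u.1))
            (om s u.2.2) x‖) ^ 2 ≤
      ((Iic (n : ℝ)).indicator (fun τ => ENNReal.ofReal (W * Real.exp (κ * τ))) u.2.1) ^ 2 := by
    rintro i ⟨z, t, θ⟩
    show ∑ a ∈ J, (ENNReal.ofReal ‖∑' x : {x : K // x ∈ M i ∧ x ≠ 0}, c2 a i x *
        v a (Ideal.absNorm (idl K (M i) x)) *
          pF (fun v => GG (pz (rv v)) (c a v)) (yM K (M i) t (zs s z)) (om s θ) x‖) ^ 2 ≤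
      ((Iic (n : ℝ)).indicator (fun τ => ENNReal.ofReal (W * Real.exp (κ * τ))) t) ^ 2
    by_cases ht : t ≤ n
    · rw [indicator_of_mem (show t ∈ Iic (n : ℝ) from ht)]
      obtain ⟨σ, hσ⟩ : ∃ σ : ℝ, σ = if 0 ≤ Real.log X + t then κ else 1 := ⟨_, rfl⟩
      have hσ' : σ = κ ∨ σ = 1 := by
        rw [hσ]
        split_ifs
        · exact Or.inl rfl
        · exact Or.inr rfl
      have hIN' : ∀ a ∈ J, _ := fun a ha =>
        hIN K (M i) (c a) pz (c2 a i) κ X B (v a) (hM.1 i) pz_Pf ⟨E, hbd2 a ha i⟩ hκ0 hκ1 hX0 hB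
          (hv a ha) (zs s z) t (om s θ) σ (Pool.Agent.H29.DW.Pos_om s θ) hσ'
      obtain ⟨b, hb⟩ : ∃ b : ℝ, b = Real.exp (-t) / Nf K l := ⟨_, rfl⟩
      have hb0 : 0 ≤ b := by rw [hb]; positivity
      obtain ⟨F, hF⟩ : ∃ F : ℝ, F = Q * ((1 + b) ^ (1 / 2 : ℝ) *
        (1 + b / T) ^ (3 / 4 : ℝ)) := ⟨_, rfl⟩
      have hF0 : 0 ≤ F := by rw [hF]; positivity
      have hF2 : F ^ 2 = (C1 + C2) * ((E * (Nf K l * R)) ^ 2 * (D * dK K * R) ^ B₀ *
          T ^ (ε / 2) * PH) * ((1 + b) * (1 + b / T) ^ (3 / 2 : ℝ)) := by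
        rw [hF, mul_pow, mul_pow, hQ2, pw2 (by positivity), pw34 (by positivity)]
      -- the sum of the twelfth powers for fixed `w`
      have hin : ∀ w : ℝ, ∑ a ∈ J, ‖∑' x : {x : K // x ∈ M i}, c2 a i x *
          pF (fun v => GG (ps σ pz (rv v)) (c a v + (v.mult : ℂ) * w))
            (yM K (M i) t (zs s z)) (om s θ) x‖ ^ 2 ≤ F ^ 2 * ((4 + 2 * |w|) ^ m) ^ 2 := by
        intro w
        have key : ∀ C' : ℝ, 0 ≤ C' → C' ≤ C1 + C2 →
            C' * ((E * (Nf K l * R)) ^ 2 * (D * dK K * R * (1 + |w|)) ^ B₀ * T ^ (ε / 2) * PH *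
              ((1 + b) * (1 + b / T) ^ (3 / 2 : ℝ))) ≤
            F ^ 2 * ((4 + 2 * |w|) ^ m) ^ 2 := by
          intro C' h0 h1
          have hw : (1 + |w|) ^ B₀ ≤ ((4 + 2 * |w|) ^ m) ^ 2 := by
            have hw1 : 1 ≤ 4 + 2 * |w| := by have := abs_nonneg w; linarith
            calc (1 + |w|) ^ B₀ ≤ (4 + 2 * |w|) ^ B₀ :=
                  Real.rpow_le_rpow (by positivity) (by have := abs_nonneg w; linarith) hB₀
              _ ≤ (4 + 2 * |w|) ^ ((2 * m : ℕ) : ℝ) :=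
                  Real.rpow_le_rpow_of_exponent_le hw1 hm
              _ = ((4 + 2 * |w|) ^ m) ^ 2 := by
                  rw [Real.rpow_natCast, ← pow_mul]
                  congr 1
                  ring
          rw [hF2, Real.mul_rpow (by positivity) (by positivity)]
          calc C' * ((E * (Nf K l * R)) ^ 2 * ((D * dK K * R) ^ B₀ * (1 + |w|) ^ B₀) * T ^ (ε / 2) * PH *
                ((1 + b) * (1 + b / T) ^ (3 / 2 : ℝ)))
              ≤ (C1 + C2) * ((E * (Nf K l * R)) ^ 2 * ((D * dK K * R) ^ B₀ * ((4 + 2 * |w|) ^ m) ^ 2) *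
                T ^ (ε / 2) * PH * ((1 + b) * (1 + b / T) ^ (3 / 2 : ℝ))) := by
                gcongr
            _ = _ := by ring
        rcases hσ' with h | h
        · have h2 := hRS1 K hn l k κκ (M i) (x₀ i) (yM K (M i) t (zs s z)) (om s θ) H τ A J bl η c
            (fun a => cc a i) D E w hLK (hM.1 i) (hgen i) (Pool.Agent.H29.DW.Pos_om s θ) hKq hτ1 hLC
            hcls hLab hspc hD hE (fun a ha => hper a ha i) (fun a ha => hbd a ha i)
          simp only [hgoal] at h2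
          rw [← hR, DD_yM hYC (M i) (hM.1 i), ← hT, ← hPH, ← hb] at h2
          rw [h]
          exact h2.trans (key C1 hC1 (by linarith))
        · have h2 := hRS2 K hn l k κκ (M i) (x₀ i) (yM K (M i) t (zs s z)) (om s θ) H τ A J bl η c
            (fun a => cc a i) D E w hLK (hM.1 i) (hgen i) (Pool.Agent.H29.DW.Pos_om s θ) hKq hτ1 hLC
            hcls hLab hspc hD hE (fun a ha => hper a ha i) (fun a ha => hbd a ha i)
          simp only [hgoal] at h2
          rw [← hR, DD_yM hYC (M i) (hM.1 i), ← hT, ← hPH, ← hb] at h2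
          rw [h]
          exact h2.trans (key C2 hC2 (by linarith))
      -- Minkowski
      have hmk := hJN ℝ A volume J (fun a w => ENNReal.ofReal (Real.exp (-w ^ 2 / 4) *
          ‖∑' x : {x : K // x ∈ M i}, c2 a i x *
          pF (fun v => GG (ps σ pz (rv v)) (c a v + (v.mult : ℂ) * w))
            (yM K (M i) t (zs s z)) (om s θ) x‖))
        (fun w => ENNReal.ofReal F * ENNReal.ofReal (Real.exp (-w ^ 2 / 4) *
          (4 + 2 * |w|) ^ m)) (by
        intro w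
        rw [← ENNReal.ofReal_mul hF0, ← ENNReal.ofReal_pow (by positivity)]
        have e1 : ∀ a ∈ J, (ENNReal.ofReal (Real.exp (-w ^ 2 / 4) *
            ‖∑' x : {x : K // x ∈ M i}, c2 a i x *
            pF (fun v => GG (ps σ pz (rv v)) (c a v + (v.mult : ℂ) * w))
              (yM K (M i) t (zs s z)) (om s θ) x‖)) ^ 2 =
            ENNReal.ofReal (Real.exp (-w ^ 2 / 4) ^ 2 *
            ‖∑' x : {x : K // x ∈ M i}, c2 a i x *
            pF (fun v => GG (ps σ pz (rv v)) (c a v + (v.mult : ℂ) * w))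
              (yM K (M i) t (zs s z)) (om s θ) x‖ ^ 2) := by
          intro a _
          rw [← ENNReal.ofReal_pow (by positivity), mul_pow]
        rw [Finset.sum_congr rfl e1, ← ENNReal.ofReal_sum_of_nonneg (fun a _ => by positivity)]
        refine ENNReal.ofReal_le_ofReal ?_
        rw [← Finset.mul_sum]
        calc Real.exp (-w ^ 2 / 4) ^ 2 * _ ≤
              Real.exp (-w ^ 2 / 4) ^ 2 * (F ^ 2 * ((4 + 2 * |w|) ^ m) ^ 2) :=
              mul_le_mul_of_nonneg_left (hin w) (by positivity)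
          _ = _ := by ring)
      rw [lintegral_const_mul' _ _ ENNReal.ofReal_ne_top, ← hI0] at hmk
      have hB1 : 0 ≤ B * X ^ σ * Real.exp (t * (1 / 2 + σ)) := by positivity
      calc ∑ a ∈ J, (ENNReal.ofReal ‖∑' x : {x : K // x ∈ M i ∧ x ≠ 0}, c2 a i x *
            v a (Ideal.absNorm (idl K (M i) x)) *
              pF (fun v => GG (pz (rv v)) (c a v)) (yM K (M i) t (zs s z)) (om s θ) x‖) ^ 2
          ≤ ∑ a ∈ J, (ENNReal.ofReal (B * X ^ σ * Real.exp (t * (1 / 2 + σ)))) ^ 2 *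
            (∫⁻ w : ℝ, ENNReal.ofReal (Real.exp (-w ^ 2 / 4) *
              ‖∑' x : {x : K // x ∈ M i}, c2 a i x *
              pF (fun v => GG (ps σ pz (rv v)) (c a v + (v.mult : ℂ) * w))
                (yM K (M i) t (zs s z)) (om s θ) x‖)) ^ 2 := by
            refine Finset.sum_le_sum fun a ha => ?_
            rw [← mul_pow]
            exact pow_le_pow_left' (hIN' a ha) 2
        _ = (ENNReal.ofReal (B * X ^ σ * Real.exp (t * (1 / 2 + σ)))) ^ 2 *
            ∑ a ∈ J, (∫⁻ w : ℝ, ENNReal.ofReal (Real.exp (-w ^ 2 / 4) *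
              ‖∑' x : {x : K // x ∈ M i}, c2 a i x *
              pF (fun v => GG (ps σ pz (rv v)) (c a v + (v.mult : ℂ) * w))
                (yM K (M i) t (zs s z)) (om s θ) x‖)) ^ 2 := by
            rw [Finset.mul_sum]
        _ ≤ (ENNReal.ofReal (B * X ^ σ * Real.exp (t * (1 / 2 + σ)))) ^ 2 *
            (ENNReal.ofReal F * I0) ^ 2 := mul_le_mul' le_rfl hmk
        _ = (ENNReal.ofReal (B * X ^ σ * Real.exp (t * (1 / 2 + σ)) * (F * I0.toReal))) ^ 2 := by
            rw [← mul_pow]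
            congr 1
            rw [ENNReal.ofReal_mul hB1, ENNReal.ofReal_mul hF0, ENNReal.ofReal_toReal hI0fin.ne]
        _ ≤ (ENNReal.ofReal (W * Real.exp (κ * t))) ^ 2 := by
            refine pow_le_pow_left' (ENNReal.ofReal_le_ofReal ?_) 2
            have hnum := num (n := n) (κ := κ) (X := X) (N := Nf K l) (T := T) (d := dK K)
              (a := b) (τ := t) hκ0 hκ12 hX hNf hT1 hd hX2 ht hb σ hσ
            have hcmp := cmp hT1 hb0
            calc B * X ^ σ * Real.exp (t * (1 / 2 + σ)) * (F * I0.toReal)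
                = (B * Q * I0.toReal) * (X ^ σ * Real.exp (t * (1 / 2 + σ)) *
                  ((1 + b) ^ (1 / 2 : ℝ) * (1 + b / T) ^ (3 / 4 : ℝ))) := by
                  rw [hF]
                  ring
              _ ≤ (B * Q * I0.toReal) * (X ^ σ * Real.exp (t * (1 / 2 + σ)) *
                  ((1 + b) ^ (1 / 2 : ℝ) * (1 + b / T ^ (1 / 2 : ℝ)) ^ (11 / 12 : ℝ))) := by
                  gcongr
              _ ≤ (B * Q * I0.toReal) * ((Real.exp n + 1) * 6 ^ n * dK K *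
                  (2 * X ^ κ * Real.exp (κ * t))) :=
                  mul_le_mul_of_nonneg_left hnum (by positivity)
              _ = W * Real.exp (κ * t) := by
                  rw [hW]
                  ring
    · rw [indicator_of_notMem (show t ∉ Iic (n : ℝ) from ht)]
      refine le_of_eq ?_
      rw [zero_pow (by norm_num)]
      refine Finset.sum_eq_zero fun a ha => ?_
      have h1 := (hMS K (M i) (c a) pz (c2 a i) s (hM.1 i) pz_Pf ⟨E, hbd2 a ha i⟩).2
      have h2 : ∀ x : {x : K // x ∈ M i ∧ x ≠ 0}, c2 a i x *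
          v a (Ideal.absNorm (idl K (M i) x)) *
            pF (fun v => GG (pz (rv v)) (c a v)) (yM K (M i) t (zs s z)) (om s θ) x = 0 := by
        intro x
        have h3 : pF (fun v => GG (pz (rv v)) (c a v)) (yM K (M i) t (zs s z)) (om s θ) x.1 =
            0 := by
          by_contra h4
          have h5 := (h1 (zs s z) t θ x.1 x.2.1 h4).2
          rw [hn] at h5
          exact ht h5
        rw [h3, mul_zero]
      simp only [h2, tsum_zero, norm_zero, ENNReal.ofReal_zero]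
      exact zero_pow (by norm_num)
  -- the integral
  have hgm : Measurable ((Iic (n : ℝ)).indicator
      (fun τ => ENNReal.ofReal (W * Real.exp (κ * τ)))) := by
    refine Measurable.indicator ?_ measurableSet_Iic
    fun_prop
  obtain ⟨V, hV⟩ : ∃ V : ℝ, V = regulator K * ((W * (Real.exp (κ * n) / κ)) *
    (2 * Real.pi) ^ n) := ⟨_, rfl⟩
  have hV0 : 0 ≤ V := by rw [hV]; positivity
  have hone : ∀ i : ι, ∑ a ∈ J, (∫⁻ u in Fd K ×ˢ (univ : Set ℝ) ×ˢ An K,
      ENNReal.ofReal ‖∑' x : {x : K // x ∈ M i ∧ x ≠ 0}, c2 a i x *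
        v a (Ideal.absNorm (idl K (M i) x)) *
          pF (fun v => GG (pz (rv v)) (c a v)) (yM K (M i) u.2.1 (zs s u.1))
            (om s u.2.2) x‖) ^ 2 ≤ (ENNReal.ofReal V) ^ 2 := by
    intro i
    refine (hJN _ A _ J _ _ (hpt i)).trans ?_
    refine pow_le_pow_left' ?_ 2
    refine (lint_prod hn hFD _ hgm).trans (le_of_eq ?_)
    rw [lintegral_indicator measurableSet_Iic, lint_exp hW0 hκ0,
      ← ENNReal.ofReal_mul (by positivity), ← ENNReal.ofReal_mul hreg.le, hV]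
  -- the sum over the classes
  let _ : MeasurableSpace ι := ⊤
  have _ : MeasurableSingletonClass ι := ⟨fun _ => trivial⟩
  have hcl := hJN ι A Measure.count J (fun a i => ∫⁻ u in Fd K ×ˢ (univ : Set ℝ) ×ˢ An K,
      ENNReal.ofReal ‖∑' x : {x : K // x ∈ M i ∧ x ≠ 0}, c2 a i x *
        v a (Ideal.absNorm (idl K (M i) x)) *
          pF (fun v => GG (pz (rv v)) (c a v)) (yM K (M i) u.2.1 (zs s u.1))
            (om s u.2.2) x‖) (fun _ => ENNReal.ofReal V) hone
  simp only [lintegral_fintype, Measure.count_singleton, mul_one] at hcl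
  refine hcl.trans ?_
  rw [Finset.sum_const, nsmul_eq_mul, Finset.card_univ, (hRR K ι M hM).2.2,
    ← ENNReal.ofReal_natCast, ← ENNReal.ofReal_mul (Nat.cast_nonneg _),
    ← ENNReal.ofReal_pow (by positivity)]
  refine ENNReal.ofReal_le_ofReal ?_
  have hfin := fin2 (n := n) hε0 hε1 hκ0 hκ hB₀ hX hNf hR1 hT1 hd hD hX2 hPH0
  calc ((classNumber K : ℝ) * V) ^ 2
      = (C1 + C2) * ((Real.exp n + 1) * 6 ^ n * 2) ^ 2 * I0.toReal ^ 2 *
        (Real.exp (κ * n) / κ) ^ 2 * ((2 * Real.pi) ^ n) ^ 2 *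
        (B * E * (classNumber K * regulator K)) ^ 2 *
        ((Nf K l * R) ^ 2 * (D * dK K * R) ^ B₀ * T ^ (ε / 2) * PH * dK K ^ 2 * (X ^ κ) ^ 2) := by
        rw [hV, hW]
        have : ∀ q : ℝ, q ^ 2 = (C1 + C2) * ((E * (Nf K l * R)) ^ 2 * (D * dK K * R) ^ B₀ *
            T ^ (ε / 2) * PH) → ((classNumber K : ℝ) * (regulator K * (B * q *
            ((Real.exp n + 1) * 6 ^ n * dK K * (2 * X ^ κ)) * I0.toReal *
              (Real.exp (κ * n) / κ) * (2 * Real.pi) ^ n))) ^ 2 =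
            (C1 + C2) * ((Real.exp n + 1) * 6 ^ n * 2) ^ 2 * I0.toReal ^ 2 *
            (Real.exp (κ * n) / κ) ^ 2 * ((2 * Real.pi) ^ n) ^ 2 *
            (B * E * (classNumber K * regulator K)) ^ 2 *
            ((Nf K l * R) ^ 2 * (D * dK K * R) ^ B₀ * T ^ (ε / 2) * PH * dK K ^ 2 * (X ^ κ) ^ 2) := by
          intro q hq
          simp only [mul_pow] at hq ⊢
          rw [hq]
          ring
        exact this Q hQ2
    _ ≤ (C1 + C2) * ((Real.exp n + 1) * 6 ^ n * 2) ^ 2 * I0.toReal ^ 2 *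
        (Real.exp (κ * n) / κ) ^ 2 * ((2 * Real.pi) ^ n) ^ 2 *
        (B * E * (classNumber K * regulator K)) ^ 2 *
        (6 ^ n * ((D * dK K * (Nf K l * R)) ^ (B₀ + 7) * T ^ ε * PH)) := by
        refine mul_le_mul_of_nonneg_left hfin ?_
        positivity
    _ = _ := by ring

end Pool.Agent.H1.DMQ.QI
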